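import Pool.Agent.W225.TD2.Stm

/-!
# Project TD2: the bound of Kreher and Radziszowski from the two steps
-/

set_option autoImplicit false

open Finset

namespace Pool.Agent.W962.TD2KR

open Pool.Agent.W225.TD2

variable {n : ℕ} {G : SimpleGraph (Fin n)} {U : Finset (Fin n)}

open Classical in
theorem mem_rem {u v : Fin n} : u ∈ rem G U v ↔ u ∈ U ∧ u ≠ v ∧ ¬ G.Adj v u := by
  unfold rem
  rw [Finset.mem_filter]

theorem rem_ssub {v : Fin n} (hv : v ∈ U) : rem G U v ⊂ U := by
  rw [Finset.ssubset_iff_of_subset (fun u hu => (mem_rem.1 hu).1)]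
  exact ⟨v, hv, fun h => (mem_rem.1 h).2.1 rfl⟩

open Classical in
theorem dg_pos {u v : Fin n} (hv : v ∈ U) (h : G.Adj u v) : 1 ≤ dg G U u := by
  unfold dg
  exact Finset.card_pos.2 ⟨v, Finset.mem_filter.2 ⟨hv, h⟩⟩

open Classical in
theorem le_zz {v : Fin n} (c : ℕ) (h : ∀ u ∈ U, G.Adj v u → c ≤ dg G U u) :
    dg G U v * c ≤ zz G U v := by
  unfold zz
  have h1 : dg G U v = (U.filter (fun u => G.Adj v u)).card := rfl
  rw [h1, ← smul_eq_mul]
  exact Finset.card_nsmul_le_sum _ _ _ (fun u hu => h u (Finset.mem_filter.1 hu).1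
    (Finset.mem_filter.1 hu).2)

theorem dg_le_zz {v : Fin n} (hv : v ∈ U) : dg G U v ≤ zz G U v := by
  have := le_zz (G := G) (U := U) (v := v) 1 (fun u _ h => dg_pos hv h.symm)
  rwa [mul_one] at this

open Classical in
theorem sum_zz : ∑ v ∈ U, zz G U v = ∑ u ∈ U, dg G U u * dg G U u := by
  unfold zz
  simp only [Finset.sum_filter]
  rw [Finset.sum_comm]
  refine Finset.sum_congr rfl fun u _ => ?_
  rw [← Finset.sum_filter, Finset.sum_const, smul_eq_mul]
  congr 1
  unfold dg
  congr 1
  ext v
  simp only [Finset.mem_filter, G.adj_comm]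

open Classical in
/-- a neighbour of a vertex of degree two with minimal sum has degree two -/
theorem nb_two {v u : Fin n} (hd : dg G U v = 2) (hz : zz G U v ≤ 4)
    (hge : ∀ w ∈ U, 2 ≤ dg G U w) (hu : u ∈ U) (h : G.Adj v u) : dg G U u = 2 := by
  by_contra hne
  have h3 : 3 ≤ dg G U u := by
    have := hge u hu
    omega
  have hmem : u ∈ U.filter (fun u => G.Adj v u) := Finset.mem_filter.2 ⟨hu, h⟩
  have h1 : zz G U v = dg G U u + ∑ w ∈ (U.filter (fun u => G.Adj v u)).erase u, dg G U w := by
    unfold zz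
    rw [Finset.add_sum_erase _ _ hmem]
  have h2 : ((U.filter (fun u => G.Adj v u)).erase u).card = 1 := by
    rw [Finset.card_erase_of_mem hmem]
    have : (U.filter (fun u => G.Adj v u)).card = 2 := hd
    omega
  have h4 : ((U.filter (fun u => G.Adj v u)).erase u).card • 2 ≤
      ∑ w ∈ (U.filter (fun u => G.Adj v u)).erase u, dg G U w :=
    Finset.card_nsmul_le_sum _ _ _ (fun w hw =>
      hge w (Finset.mem_filter.1 (Finset.mem_of_mem_erase hw)).1)
  rw [h2, one_smul] at h4
  omega

theorem main_step (hREM : S_REM) (hCUB : S_CUB) (hG : G.CliqueFree 3) :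
    ∀ (U : Finset (Fin n)) (a : ℕ), Ind G U a → 0 ≤ sl G U a := by
  classical
  intro U
  induction U using Finset.strongInduction with
  | H U ih =>
    intro a hI
    by_contra hneg
    push Not at hneg
    have hne : U.Nonempty := by
      rw [Finset.nonempty_iff_ne_empty]
      intro h0
      rw [h0] at hneg
      unfold sl at hneg
      simp only [Finset.card_empty] at hneg
      have : (0 : ℤ) ≤ (arcs G ∅ : ℤ) := by positivity
      push_cast at hneg
      omega
    have hA : ∀ v ∈ U, zz G U v + 6 ≤ 5 * dg G U v := by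
      intro v hv
      obtain ⟨-, h2, h3⟩ := hREM n G U a v hG hv hI
      have h4 := ih _ (rem_ssub hv) (a - 1) h2
      rw [h3] at h4
      omega
    have hge2 : ∀ v ∈ U, 2 ≤ dg G U v := by
      intro v hv
      have h1 := hA v hv
      have h2 := dg_le_zz (G := G) hv
      omega
    by_cases h2 : ∃ v1 ∈ U, dg G U v1 = 2
    · obtain ⟨v1, hv1, hd1⟩ := h2
      have hz1 : zz G U v1 ≤ 4 := by
        have := hA v1 hv1
        omega
      have hz1' : 4 ≤ zz G U v1 := by
        have := le_zz (G := G) (U := U) (v := v1) 2 (fun u hu _ => hge2 u hu)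
        omega
      obtain ⟨v2, hv2⟩ : (U.filter (fun u => G.Adj v1 u)).Nonempty := by
        rw [← Finset.card_pos]
        have : (U.filter (fun u => G.Adj v1 u)).card = dg G U v1 := by
          unfold dg; congr
        omega
      rw [Finset.mem_filter] at hv2
      obtain ⟨hv2, h12⟩ := hv2
      have hd2 := nb_two hd1 hz1 hge2 hv2 h12
      have hz2 : zz G U v2 ≤ 4 := by
        have := hA v2 hv2
        omega
      obtain ⟨v3, hv3, h31⟩ : ∃ v3 ∈ U.filter (fun u => G.Adj v2 u), v3 ≠ v1 := by
        apply Finset.exists_mem_ne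
        have : (U.filter (fun u => G.Adj v2 u)).card = dg G U v2 := by
          unfold dg; congr
        omega
      rw [Finset.mem_filter] at hv3
      obtain ⟨hv3, h23⟩ := hv3
      have hd3 := nb_two hd2 hz2 hge2 hv3 h23
      have h13 : ¬ G.Adj v1 v3 := by
        intro h13
        exact hG {v1, v2, v3} (SimpleGraph.is3Clique_triple_iff.2 ⟨h12, h13, h23⟩)
      obtain ⟨-, i1, s1⟩ := hREM n G U a v1 hG hv1 hI
      have hv3' : v3 ∈ rem G U v1 := mem_rem.2 ⟨hv3, h31, h13⟩
      obtain ⟨-, i2, s2⟩ := hREM n G (rem G U v1) (a - 1) v3 hG hv3' i1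
      have hs := ih _ ((rem_ssub hv3').trans (rem_ssub hv1)) _ i2
      have hdd : dg G (rem G U v1) v3 < dg G U v3 := by
        unfold dg
        apply Finset.card_lt_card
        rw [Finset.ssubset_iff_of_subset]
        · refine ⟨v2, Finset.mem_filter.2 ⟨hv2, h23.symm⟩, fun h => ?_⟩
          exact (mem_rem.1 (Finset.mem_filter.1 h).1).2.2 h12
        · intro u hu
          rw [Finset.mem_filter] at hu ⊢
          exact ⟨(mem_rem.1 hu.1).1, hu.2⟩
      have hzz := dg_le_zz (G := G) hv3'
      rw [s2, s1] at hs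
      omega
    · have hge3 : ∀ v ∈ U, 3 ≤ dg G U v := by
        intro v hv
        have h3 := hge2 v hv
        have h4 : dg G U v ≠ 2 := fun h => h2 ⟨v, hv, h⟩
        omega
      have hsum : ∑ v ∈ U, (zz G U v + 6) ≤ ∑ v ∈ U, 5 * dg G U v := Finset.sum_le_sum hA
      rw [Finset.sum_add_distrib, sum_zz, ← Finset.sum_add_distrib] at hsum
      have hpt : ∀ v ∈ U, 5 * dg G U v ≤ dg G U v * dg G U v + 6 := by
        intro v hv
        have h3 := hge3 v hv
        nlinarith
      have heq := (Finset.sum_eq_sum_iff_of_le hpt).1 (le_antisymm (Finset.sum_le_sum hpt) hsum)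
      refine hCUB n G U a hG hI hne (fun v hv => ?_) hneg (fun U' a' hU' hI' => ih U' hU' a' hI')
      have h3 := hge3 v hv
      have h4 := heq v hv
      by_contra h5
      have h6 : 4 ≤ dg G U v := by omega
      nlinarith

theorem kr : S_REM → S_CUB → S_KR := by
  intro hREM hCUB n G U a hG hI
  exact main_step hREM hCUB hG U a hI

end Pool.Agent.W962.TD2KR
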