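import Pool.Agent.W519.N

/-!
Nachbin's Urysohn lemma for normal preorders.
-/

set_option autoImplicit false

open Set Topology Filter

namespace Pool.Agent.W519.N

/-- the predicate on pairs -/
def PP_A {X : Type*} [TopologicalSpace X] (R : X → X → Prop) (c u : Set X) : Prop :=
  Dec R u ∧ ∃ D, IsClosed D ∧ Dec R D ∧ c ⊆ D ∧ D ⊆ u

theorem inc_compl_A {X : Type*} {R : X → X → Prop} {u : Set X} (h : Dec R u) : Inc R uᶜ :=
  fun x z hxz hx hz => hx (h x z hxz hz)

theorem dec_compl_A {X : Type*} {R : X → X → Prop} {u : Set X} (h : Inc R u) : Dec R uᶜ :=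
  fun z x hzx hx hz => hx (h z x hzx hz)

theorem approx_inc_A {X : Type*} [TopologicalSpace X] {R : X → X → Prop} (n : ℕ) :
    ∀ c : Urysohns.CU (PP_A R), ∀ x y, R x y →
      Urysohns.CU.approx n c x ≤ Urysohns.CU.approx n c y := by
  induction n with
  | zero =>
    intro c x y hxy
    simp only [Urysohns.CU.approx]
    by_cases hy : y ∈ c.U
    · have hx : x ∈ c.U := c.P_C_U.1 x y hxy hy
      rw [indicator_of_notMem (fun h : x ∈ c.Uᶜ => h hx),
        indicator_of_notMem (fun h : y ∈ c.Uᶜ => h hy)]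
    · rw [indicator_of_mem (show y ∈ c.Uᶜ from hy)]
      exact indicator_apply_le' (fun _ => le_rfl) (fun _ => zero_le_one)
  | succ n ih =>
    intro c x y hxy
    simp only [Urysohns.CU.approx]
    exact midpoint_le_midpoint (ih _ x y hxy) (ih _ x y hxy)

theorem exists_incFun {X : Type*} [TopologicalSpace X] {R : X → X → Prop} (hN : NormalPre R)
    {A B : Set X} (hA : IsClosed A) (hAd : Dec R A) (hB : IsClosed B) (hBi : Inc R B)
    (hAB : Disjoint A B) :
    ∃ f : X → ℝ, Continuous f ∧ IncFun R f ∧ (∀ x ∈ A, f x = 0) ∧ (∀ x ∈ B, f x = 1) := by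
  have hAB' : A ⊆ Bᶜ := fun x hx hx' => Set.disjoint_left.1 hAB hx hx'
  let c : Urysohns.CU (PP_A R) :=
    { C := A
      U := Bᶜ
      P_C_U := ⟨dec_compl_A hBi, A, hA, hAd, Subset.rfl, hAB'⟩
      closed_C := hA
      open_U := hB.isOpen_compl
      subset := hAB'
      hP := by
        rintro c u hc ⟨hu, D, hD, hDd, hcD, hDu⟩ huo hcu
        obtain ⟨U, V, hU, hUd, hV, hVi, hDU, huV, hUV⟩ := hN D uᶜ hD hDd huo.isClosed_compl
          (inc_compl_A hu) (Set.disjoint_left.2 fun x hx hx' => hx' (hDu hx))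
        have h1 : closure U ⊆ Vᶜ :=
          closure_minimal (fun x hx hx' => Set.disjoint_left.1 hUV hx hx') hV.isClosed_compl
        have h2 : Vᶜ ⊆ u := by
          intro x hx
          by_contra hxu
          exact hx (huV hxu)
        exact ⟨U, hU, hcD.trans hDU, h1.trans h2, ⟨hUd, D, hD, hDd, hcD, hDU⟩,
          ⟨hu, Vᶜ, hV.isClosed_compl, dec_compl_A hVi, h1, h2⟩⟩ }
  refine ⟨c.lim, c.continuous_lim, fun x y hxy => ?_, fun x hx => c.lim_of_mem_C x hx,
    fun x hx => c.lim_of_notMem_U x (fun h => h hx)⟩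
  exact ciSup_mono (c.bddAbove_range_approx y) (fun n => approx_inc_A n c x y hxy)

end Pool.Agent.W519.N
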