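import Pool.Agent.W894.MB.Defs

/-!
# Countable intersections of coded sets of boards, and countable closedness
-/

set_option autoImplicit false

namespace Pool.Agent.W962.MBClosed

open Set Pool.Agent.Helper669.Forcing Pool.Agent.H995R3.Boards Pool.Agent.W894.MB

universe u

variable {K : Type u} [LinearOrder K]

theorem desc {p : ℕ → Cond K} (hp : ∀ n, p (n + 1) ≤ p n) {n m : ℕ} (h : n ≤ m) : p m ≤ p n := by
  induction h with
  | refl => exact le_rfl
  | step _ ih => exact (hp _).trans ih

open Classical in
/-- the union of a descending sequence of conditions -/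
noncomputable def un (p : ℕ → Cond K) : Cond K where
  f x := if h : ∃ n, (p n).f x ≠ none then (p h.choose).f x else none
  ctble := by
    refine (countable_iUnion (fun n => (p n).ctble)).mono ?_
    intro x hx
    rw [mem_ofPred_eq] at hx
    split_ifs at hx with h
    · exact mem_iUnion.2 ⟨h.choose, hx⟩
    · exact absurd rfl hx
  regr := by
    intro x y h
    split_ifs at h with h'
    exact (p _).regr x y h

theorem un_of {p : ℕ → Cond K} (hp : ∀ n, p (n + 1) ≤ p n) {n : ℕ} {x y : K}
    (h : (p n).f x = some y) : (un p).f x = some y := by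
  classical
  have h' : ∃ n, (p n).f x ≠ none := ⟨n, by rw [h]; simp⟩
  have h0 : (un p).f x = (p h'.choose).f x := by
    unfold un
    simp only [dif_pos h']
  rw [h0]
  obtain ⟨z, hz⟩ := Option.ne_none_iff_exists'.1 h'.choose_spec
  rcases le_total n h'.choose with h1 | h1
  · exact desc hp h1 x y h
  · have h2 := desc hp h1 x z hz
    rw [h] at h2
    rw [hz, h2]

theorem un_none {p : ℕ → Cond K} {x : K} (h : ∀ n, (p n).f x = none) : (un p).f x = none := by
  classical
  have h' : ¬ ∃ n, (p n).f x ≠ none := by
    rintro ⟨n, hn⟩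
    exact hn (h n)
  unfold un
  simp only [dif_neg h']

theorem main2 : S_SC.{u} := by
  intro K _ p hp
  exact ⟨un p, fun n x y h => un_of hp h⟩

open Classical in
/-- `r` below `x` and `q` from `x` on -/
noncomputable def glue (r q : Cond K) (x : K) : Cond K where
  f y := if y < x then r.f y else q.f y
  ctble := by
    refine (r.ctble.union q.ctble).mono ?_
    intro y hy
    rw [mem_ofPred_eq] at hy
    split_ifs at hy with h
    · exact Or.inl hy
    · exact Or.inr hy
  regr := by
    intro y z h
    split_ifs at h with h'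
    · exact r.regr y z h
    · exact q.regr y z h

theorem main1 (h2 : S_SIGMA.{u}) (h3 : S_BDD.{u}) : S_CLOSED.{u} := by
  classical
  intro K _ _ U hU hS w hw r
  have hA : (⋂ n, (w n).A) ∈ U := h2 K U hU hS _ (fun n => (w n).hA)
  have hB := h3 K U hU hS r
  have hAB : (⋂ n, (w n).A) ∩ {x | ∀ y, r.f y ≠ none → y < x} ∈ (U : Filter K) :=
    Filter.inter_mem hA hB
  obtain ⟨x, hx1, hx2⟩ := Filter.nonempty_of_mem hAB
  have hx1' : ∀ n, x ∈ (w n).A := fun n => mem_iInter.1 hx1 n
  have hd : ∀ n, (w (n + 1)).q x ≤ (w n).q x := fun n => (hw n).2 x (hx1' (n + 1))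
  refine ⟨glue r (un (fun n => (w n).q x)) x, ?_, x, fun n => ⟨hx1' n, ?_⟩⟩
  · intro y z h
    have hy : y < x := hx2 y (by rw [h]; simp)
    show (if y < x then r.f y else _) = some z
    rw [if_pos hy]
    exact h
  · intro y z h
    have hy : ¬ y < x := by
      intro hy
      rw [(w n).hq x y hy] at h
      exact absurd h (by simp)
    show (if y < x then r.f y else _) = some z
    rw [if_neg hy]
    exact un_of (p := fun n => (w n).q x) hd (n := n) h

end Pool.Agent.W962.MBClosed
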