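import Pool.Agent.W217.BE.Stm

/-!
The one variable step on certificates.
-/

set_option autoImplicit false

namespace Pool.Agent.W962.BECORE

open Polynomial
open Pool.Agent.W217.BE

/-- triangular families -/
theorem cert_of {S κ : Type} [CommRing S] [Field κ] (χ : S →+* κ) (P : ℕ → Type)
    [∀ i, AddCommGroup (P i)] [∀ i, Module S (P i)] (d : ∀ i, P (i + 1) →ₗ[S] P i)
    (i n m : ℕ) (z : Fin n → P i) (w : Fin m → P i) (a : Fin n → P i →+ κ)
    (b : Fin m → P i →+ κ) (s t : κ) (hs : s ≠ 0) (ht : t ≠ 0)
    (hz : ∀ j, Cyc χ P d i (z j)) (hw : ∀ j, Cyc χ P d i (w j)) (ha : ∀ j, IsF χ (a j))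
    (hb : ∀ j, IsF χ (b j)) (had : ∀ j x, a j (d i x) = 0) (hbd : ∀ j x, b j (d i x) = 0)
    (haz : ∀ j k, a j (z k) = if j = k then s else 0) (hbz : ∀ j k, b j (z k) = 0)
    (hbw : ∀ j k, b j (w k) = if j = k then t else 0) : Cert χ P d i (n + m) := by
  classical
  let a' : Fin n → P i →+ κ := fun j =>
    AddMonoidHom.mk' (fun x => s⁻¹ * (a j x - ∑ k, a j (w k) * t⁻¹ * b k x)) (by
      intro x y
      simp only [map_add, mul_add, Finset.sum_add_distrib]
      ring)
  let b' : Fin m → P i →+ κ := fun j =>
    AddMonoidHom.mk' (fun x => t⁻¹ * b j x) (by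
      intro x y
      simp only [map_add, mul_add])
  have a'a : ∀ j x, a' j x = s⁻¹ * (a j x - ∑ k, a j (w k) * t⁻¹ * b k x) := fun _ _ => rfl
  have b'a : ∀ j x, b' j x = t⁻¹ * b j x := fun _ _ => rfl
  refine ⟨Fin.append z w, Fin.append a' b', fun j => ?_, fun j => ?_, fun j x => ?_,
    fun j k => ?_⟩
  · refine Fin.addCases (fun j => ?_) (fun j => ?_) j
    · rw [Fin.append_left]; exact hz j
    · rw [Fin.append_right]; exact hw j
  · refine Fin.addCases (fun j => ?_) (fun j => ?_) j
    · rw [Fin.append_left]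
      intro c x
      rw [a'a, a'a, ha j c x]
      have : ∑ k, a j (w k) * t⁻¹ * b k (c • x) = χ c * ∑ k, a j (w k) * t⁻¹ * b k x := by
        rw [Finset.mul_sum]
        refine Finset.sum_congr rfl fun k _ => ?_
        rw [hb k c x]; ring
      rw [this]; ring
    · rw [Fin.append_right]
      intro c x
      rw [b'a, b'a, hb j c x]; ring
  · refine Fin.addCases (fun j => ?_) (fun j => ?_) j
    · rw [Fin.append_left, a'a, had]
      simp only [hbd, mul_zero, Finset.sum_const_zero, sub_zero]
    · rw [Fin.append_right, b'a, hbd, mul_zero]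
  · refine Fin.addCases (fun j => ?_) (fun j => ?_) j
    · rw [Fin.append_left]
      refine Fin.addCases (fun k => ?_) (fun k => ?_) k
      · rw [Fin.append_left, a'a, haz]
        simp only [hbz, mul_zero, Finset.sum_const_zero, sub_zero]
        by_cases h : j = k
        · rw [if_pos h, if_pos (by rw [h]), inv_mul_cancel₀ hs]
        · rw [if_neg h, if_neg (fun h' => h (Fin.castAdd_injective n m h')), mul_zero]
      · rw [Fin.append_right, a'a]
        have h1 : ∑ k', a j (w k') * t⁻¹ * b k' (w k) = a j (w k) := by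
          rw [Finset.sum_eq_single k]
          · rw [hbw, if_pos rfl, mul_assoc, inv_mul_cancel₀ ht, mul_one]
          · intro k' _ hk'
            rw [hbw, if_neg hk', mul_zero]
          · intro hk
            exact absurd (Finset.mem_univ k) hk
        rw [h1, sub_self, mul_zero, if_neg]
        intro h
        have h2 := congrArg Fin.val h
        simp only [Fin.val_castAdd, Fin.val_natAdd] at h2
        omega
    · rw [Fin.append_right]
      refine Fin.addCases (fun k => ?_) (fun k => ?_) k
      · rw [Fin.append_left, b'a, hbz, mul_zero, if_neg]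
        intro h
        have h2 := congrArg Fin.val h
        simp only [Fin.val_castAdd, Fin.val_natAdd] at h2
        omega
      · rw [Fin.append_right, b'a, hbw]
        by_cases h : j = k
        · rw [if_pos h, if_pos (by rw [h]), inv_mul_cancel₀ ht]
        · rw [if_neg h, if_neg (fun h' => h (Fin.natAdd_injective m n h')), mul_zero]

section
variable {C κ : Type} [CommRing C] [Field κ] {χ : C →+* κ}

/-- composition of a functional with a linear map -/
theorem isF_comp {Q P : Type} [AddCommGroup Q] [Module C Q] [AddCommGroup P] [Module C P]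
    {L : P →+ κ} (hL : IsF χ L) (φ : Q →ₗ[C] P) : IsF χ (L.comp φ.toAddMonoidHom) := by
  intro c x
  show L (φ (c • x)) = χ c * L (φ x)
  rw [map_smul, hL]

variable {P : Type} [AddCommGroup P] [Module C[X] P] [Module C P] [IsScalarTower C C[X] P]

theorem C_smul' (c : C) (x : P) : (Polynomial.C c : C[X]) • x = c • x := by
  rw [← Polynomial.algebraMap_eq, algebraMap_smul]

/-- functionals over the polynomial ring -/
theorem isF_poly {L : P →+ κ} (hL : IsF χ L) (hX : ∀ x, L ((X : C[X]) • x) = 0) :
    IsF (χ.comp (Polynomial.evalRingHom 0)) L := by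
  intro s x
  have h1 : s • x = (X : C[X]) • (divX s • x) + s.coeff 0 • x := by
    conv_lhs => rw [← divX_mul_X_add s]
    rw [add_smul, C_smul', mul_comm, mul_smul]
  rw [h1, map_add, hX, hL, zero_add]
  show _ = χ (Polynomial.evalRingHom 0 s) * L x
  rw [Polynomial.coe_evalRingHom, Polynomial.coeff_zero_eq_eval_zero]

theorem isF_res {L : P →+ κ} (hL : IsF (χ.comp (Polynomial.evalRingHom 0)) L) : IsF χ L := by
  intro c x
  rw [← C_smul', hL]
  show χ (Polynomial.evalRingHom 0 (Polynomial.C c)) * L x = _
  rw [Polynomial.coe_evalRingHom, Polynomial.eval_C]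

theorem isF_X {L : P →+ κ} (hL : IsF (χ.comp (Polynomial.evalRingHom 0)) L) (x : P) :
    L ((X : C[X]) • x) = 0 := by
  rw [hL]
  show χ (Polynomial.evalRingHom 0 (X : C[X])) * L x = _
  rw [Polynomial.coe_evalRingHom, Polynomial.eval_X, map_zero, zero_mul]

end

theorem main : CORE := by
  intro C κ _ _ χ P F G _ _ _ _ _ _ _ _ d dF dG f g p r h u v σ τ s₁ s₂ hdd hf hp hpX hr hg0 hgs
    hpf0 hpf hrg0 hrg hσ hσX hτX hs₁ hs₂
  refine ⟨fun n hF => ?_, fun k n m hF hG => ?_⟩
  · obtain ⟨z, l, -, hl, hld, hlz⟩ := hF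
    refine cert_of (χ.comp (Polynomial.evalRingHom 0)) P d 0 n 0 (fun j => f 0 (z j))
      (fun j => j.elim0) (fun j => (l j).comp (p 0).toAddMonoidHom) (fun j => j.elim0) (χ s₁) 1
      hs₁ one_ne_zero (fun j => trivial) (fun j => j.elim0) (fun j => ?_) (fun j => j.elim0)
      (fun j x => ?_) (fun j => j.elim0) (fun j k => ?_) (fun j => j.elim0) (fun j => j.elim0)
    · refine isF_poly (isF_comp (hl j) (p 0)) (fun x => ?_)
      show l j (p 0 ((X : C[X]) • x)) = 0
      rw [hpX, map_zero]
    · show l j (p 0 (d 0 x)) = 0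
      rw [← hp, hld]
    · show l j (p 0 (f 0 (z k))) = _
      rw [hpf0, map_add, hl, hld, hlz, add_zero]
      by_cases h : j = k
      · rw [if_pos h, if_pos h, mul_one]
      · rw [if_neg h, if_neg h, mul_zero]
  · obtain ⟨z, l, hz, hl, hld, hlz⟩ := hF
    obtain ⟨y, q, hy, hq, hqd, hqy⟩ := hG
    have hz' : ∀ j, ∀ L : F k →+ κ, IsF χ L → L (dF k (z j)) = 0 := hz
    -- the linear map of the differential over the smaller ring
    have hdC : ∀ (i : ℕ) (c : C) (x : P (i + 1)), d i (c • x) = c • d i x := by
      intro i c x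
      rw [← C_smul', map_smul, C_smul']
    let dC : ∀ i, P (i + 1) →ₗ[C] P i := fun i =>
      { toFun := fun x => d i x
        map_add' := fun x y => map_add (d i) x y
        map_smul' := fun c x => hdC i c x }
    let bb : Fin m → P (k + 1) →+ κ := fun j =>
      (q j).comp ((r k).comp ((τ k).comp ((dC k).comp (σ (k + 1))))).toAddMonoidHom
    have bb1 : ∀ j x, bb j x = q j (r k (τ k (d k (σ (k + 1) x)))) := fun _ _ => rfl
    have bb2 : ∀ j x, bb j x = q j (r k (τ k (d k x))) := by
      intro j x
      rw [bb1]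
      have h1 : σ (k + 1) x = x - (X : C[X]) • τ (k + 1) x := by
        rw [eq_sub_iff_add_eq]; exact (hσ (k + 1) x).symm
      rw [h1, map_sub, map_smul, map_sub, hτX, map_sub, map_sub, ← hr, hqd, sub_zero]
    refine cert_of (χ.comp (Polynomial.evalRingHom 0)) P d (k + 1) n m (fun j => f (k + 1) (z j))
      (fun j => h k (y j)) (fun j => (l j).comp (p (k + 1)).toAddMonoidHom) bb (χ s₁) (χ s₂)
      hs₁ hs₂ (fun j => ?_) (fun j => ?_) (fun j => ?_) (fun j => ?_)
      (fun j x => ?_) (fun j x => ?_) (fun j i => ?_) (fun j i => ?_) (fun j i => ?_)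
    · intro L hL
      rw [hf]
      exact hz' j (L.comp (f k).toAddMonoidHom) (isF_comp (isF_res hL) (f k))
    · intro L hL
      cases k with
      | zero =>
        rw [← hg0]
        exact isF_X hL _
      | succ k =>
        have h1 := hgs k (y j)
        have h2 : d (k + 1) (h (k + 1) (y j)) = (X : C[X]) • g (k + 1) (y j) - h k (dG k (y j)) := by
          rw [h1]; abel
        rw [h2, map_sub, isF_X hL, zero_sub, neg_eq_zero]
        exact hy j (L.comp (h k).toAddMonoidHom) (isF_comp (isF_res hL) (h k))
    · refine isF_poly (isF_comp (hl j) (p (k + 1))) (fun x => ?_)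
      show l j (p (k + 1) ((X : C[X]) • x)) = 0
      rw [hpX, map_zero]
    · refine isF_poly (isF_comp (hq j) _) (fun x => ?_)
      show bb j ((X : C[X]) • x) = 0
      rw [bb1, hσX, map_zero, map_zero, map_zero, map_zero]
    · show l j (p (k + 1) (d (k + 1) x)) = 0
      rw [← hp, hld]
    · rw [bb2, hdd, map_zero, map_zero, map_zero]
    · show l j (p (k + 1) (f (k + 1) (z i))) = _
      have h1 : l j (u k (dF k (z i))) = 0 :=
        hz' i ((l j).comp (u k).toAddMonoidHom) (isF_comp (hl j) (u k))
      rw [hpf, map_add, map_add, hl, hld, h1, hlz, add_zero, add_zero]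
      by_cases h : j = i
      · rw [if_pos h, if_pos h, mul_one]
      · rw [if_neg h, if_neg h, mul_zero]
    · rw [bb2, hf]
      exact hz' i ((q j).comp ((r k).comp ((τ k).comp (f k))).toAddMonoidHom)
        (isF_comp (hq j) _)
    · rw [bb2]
      have fin : ∀ t : κ, t = χ s₂ * (if j = i then 1 else 0) → t = if j = i then χ s₂ else 0 := by
        intro t ht
        rw [ht]
        by_cases h : j = i
        · rw [if_pos h, if_pos h, mul_one]
        · rw [if_neg h, if_neg h, mul_zero]
      apply fin
      cases k with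
      | zero =>
        rw [← hg0, hτX, hrg0, map_add, hq, hqd, hqy, add_zero]
      | succ k =>
        have h1 := hgs k (y i)
        have h2 : d (k + 1) (h (k + 1) (y i)) = (X : C[X]) • g (k + 1) (y i) - h k (dG k (y i)) := by
          rw [h1]; abel
        have h3 : q j (r (k + 1) (τ (k + 1) (h k (dG k (y i))))) = 0 :=
          hy i ((q j).comp ((r (k + 1)).comp ((τ (k + 1)).comp (h k))).toAddMonoidHom)
            (isF_comp (hq j) _)
        have h4 : q j (v k (dG k (y i))) = 0 :=
          hy i ((q j).comp (v k).toAddMonoidHom) (isF_comp (hq j) (v k))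
        rw [h2, map_sub, hτX, map_sub, map_sub, h3, sub_zero, hrg, map_add, map_add, hq, hqd, h4,
          hqy, add_zero, add_zero]

end Pool.Agent.W962.BECORE
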