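import Pool.Agent.W960.HC.Defs

/-! The half turn: first return to the vertical axis. -/

open Set Topology Filter MeasureTheory

namespace Pool.Agent.W962.HC
open Pool.Agent.W960.HC

theorem contDiff_fld (a c ε : ℝ) : ContDiff ℝ 1 (fld a c ε) := by
  unfold fld
  fun_prop

theorem continuous_G (a c : ℝ) : Continuous (G a c) := by
  unfold G
  fun_prop

theorem kp_lt {X : ℝ} (hX : 0 < X) : kp X < 1 := by
  unfold kp
  have h1 : X ^ 2 + 1 < Real.exp (X ^ 2) := Real.add_one_lt_exp (by positivity)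
  have h2 : Real.exp (-X ^ 2) * Real.exp (X ^ 2) = 1 := by
    rw [← Real.exp_add]; simp
  have h3 := Real.exp_pos (-X ^ 2)
  nlinarith

theorem et_pos {X : ℝ} (hX : 0 < X) : 0 < et X :=
  Real.sqrt_pos.2 (by linarith [kp_lt hX])

theorem continuous_et : Continuous et := by
  unfold et kp
  fun_prop

theorem et_smooth {X : ℝ} (hX : 0 < X) : ContDiffAt ℝ 1 et X := by
  have h1 : ContDiffAt ℝ 1 (fun X => 1 - kp X) X := by
    unfold kp
    fun_prop
  exact h1.sqrt (by linarith [kp_lt hX])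

/-- uniqueness for the flow -/
theorem flow_eq {a c R : ℝ} {Z : ℝ → ℝ × ℝ → ℝ → ℝ × ℝ} {W : ℝ → ℝ × ℝ → ℝ → ℝ}
    (h : Flw a c R Z W) {p : ℝ × ℝ} {T r : ℝ} (hr : r < R) {γ : ℝ → ℝ × ℝ}
    (h0 : γ 0 = p) (hd : ∀ t ∈ Icc 0 T, HasDerivAt γ (fld a c 0 (γ t)) t)
    (hb : ∀ t ∈ Icc 0 T, ‖γ t‖ ≤ r) : ∀ t ∈ Icc 0 T, Z t p 0 = γ t := by
  have hZc : Continuous (fun t => Z t p 0) := by
    have := h.smZ.continuous
    exact this.comp (by fun_prop : Continuous (fun t : ℝ => (t, p, (0 : ℝ))))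
  have hγc : ContinuousOn γ (Icc 0 T) := fun t ht => (hd t ht).continuousAt.continuousWithinAt
  have hs : IsClosed ({t | Z t p 0 = γ t} ∩ Icc 0 T) := by
    have h1 : ContinuousOn (fun t => Z t p 0 - γ t) (Icc 0 T) := hZc.continuousOn.sub hγc
    have h2 := h1.preimage_isClosed_of_isClosed isClosed_Icc (isClosed_singleton (x := (0 : ℝ × ℝ)))
    have h3 : {t | Z t p 0 = γ t} ∩ Icc 0 T =
        Icc 0 T ∩ (fun t => Z t p 0 - γ t) ⁻¹' {0} := by
      ext t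
      constructor
      · rintro ⟨h4, h5⟩
        exact ⟨h5, sub_eq_zero.2 h4⟩
      · rintro ⟨h4, h5⟩
        exact ⟨sub_eq_zero.1 h5, h4⟩
    rw [h3]; exact h2
  refine IsClosed.Icc_subset_of_forall_exists_gt hs ?_ ?_
  · show Z 0 p 0 = γ 0
    rw [h.zero, h0]
  · rintro x ⟨hx, hx0, hxT⟩ y hy
    have hx' : Z x p 0 = γ x := hx
    have hy' : x < y := hy
    obtain ⟨K, N, hN, hK⟩ := (contDiff_fld a c 0).contDiffAt (x := γ x).exists_lipschitzOnWith
    have e1 : ∀ᶠ t in 𝓝 x, Z t p 0 ∈ N := by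
      have := hZc.continuousAt (x := x)
      exact this.eventually_mem (by rw [hx']; exact hN)
    have e2 : ∀ᶠ t in 𝓝 x, γ t ∈ N := (hd x ⟨hx0, hxT.le⟩).continuousAt.eventually_mem hN
    have e3 : ∀ᶠ t in 𝓝 x, ‖Z t p 0‖ < R := by
      have h4 : ‖Z x p 0‖ < R := by
        rw [hx']; exact (hb x ⟨hx0, hxT.le⟩).trans_lt hr
      exact (hZc.norm.continuousAt (x := x)).eventually_lt continuousAt_const h4
    obtain ⟨η, hη, hall⟩ := Metric.eventually_nhds_iff.1 (e1.and (e2.and e3))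
    obtain ⟨y', hy'def⟩ : ∃ y', y' = min (min y T) (x + η / 2) := ⟨_, rfl⟩
    have y1 : x < y' := by
      rw [hy'def]
      exact lt_min (lt_min hy' hxT) (by linarith)
    have y2 : y' ≤ y := by rw [hy'def]; exact (min_le_left _ _).trans (min_le_left _ _)
    have y3 : y' ≤ T := by rw [hy'def]; exact (min_le_left _ _).trans (min_le_right _ _)
    have y4 : y' ≤ x + η / 2 := by rw [hy'def]; exact min_le_right _ _
    have hd' : ∀ t ∈ Icc x y', dist t x < η := by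
      intro t ht
      rw [Real.dist_eq, abs_lt]
      constructor <;> linarith [ht.1, ht.2]
    have hT' : ∀ t ∈ Icc x y', t ∈ Icc 0 T := fun t ht => ⟨hx0.trans ht.1, ht.2.trans y3⟩
    have key : EqOn (fun t => Z t p 0) γ (Icc x y') := by
      refine ODE_solution_unique_of_mem_Icc_right (v := fun _ => fld a c 0) (s := fun _ => N)
        (K := K) (fun _ _ => hK) hZc.continuousOn ?_ ?_ (hγc.mono hT') ?_ ?_ hx'
      · intro t ht
        exact (h.der p 0 t (hall (hd' t (Ico_subset_Icc_self ht))).2.2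
          (by simp)).hasDerivWithinAt
      · intro t ht
        exact (hall (hd' t (Ico_subset_Icc_self ht))).1
      · intro t ht
        exact (hd t (hT' t (Ico_subset_Icc_self ht))).hasDerivWithinAt
      · intro t ht
        exact (hall (hd' t (Ico_subset_Icc_self ht))).2.1
    exact ⟨y', key ⟨y1.le, le_rfl⟩, y1, y2⟩

/-- the accumulator -/
theorem acc_eq {a c R : ℝ} {Z : ℝ → ℝ × ℝ → ℝ → ℝ × ℝ} {W : ℝ → ℝ × ℝ → ℝ → ℝ}
    (h : Flw a c R Z W) {p : ℝ × ℝ} {T r : ℝ} (hT : 0 < T) (hr : r < R) {γ : ℝ → ℝ × ℝ}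
    (h0 : γ 0 = p) (hd : ∀ t ∈ Icc 0 T, HasDerivAt γ (fld a c 0 (γ t)) t)
    (hb : ∀ t ∈ Icc 0 T, ‖γ t‖ ≤ r) : W T p 0 = ∫ t in (0:ℝ)..T, G a c (γ t) := by
  have hZ := flow_eq h hr h0 hd hb
  have hZc : Continuous (fun t => Z t p 0) := by
    have := h.smZ.continuous
    exact this.comp (by fun_prop : Continuous (fun t : ℝ => (t, p, (0 : ℝ))))
  have h1 : ∫ t in (0:ℝ)..T, G a c (Z t p 0) = W T p 0 - W 0 p 0 := by
    refine intervalIntegral.integral_eq_sub_of_hasDerivAt (f := fun t => W t p 0) ?_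
      (((continuous_G a c).comp hZc).intervalIntegrable _ _)
    intro t ht
    rw [uIcc_of_le hT.le] at ht
    refine h.derW p 0 t ?_ (by simp)
    rw [hZ t ht]
    exact (hb t ht).trans_lt hr
  rw [h.wzero, sub_zero] at h1
  rw [← h1]
  refine intervalIntegral.integral_congr fun t ht => ?_
  rw [uIcc_of_le hT.le] at ht
  simp only [hZ t ht]

/-- derivative of the first coordinate -/
theorem der_fst {a c R : ℝ} {Z : ℝ → ℝ × ℝ → ℝ → ℝ × ℝ} {W : ℝ → ℝ × ℝ → ℝ → ℝ}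
    (h : Flw a c R Z W) {p : ℝ × ℝ} {ε t : ℝ} (h1 : ‖Z t p ε‖ < R) (h2 : |ε| < 1) :
    HasDerivAt (fun t => (Z t p ε).1) (Z t p ε).2 t := by
  have h3 := h.der p ε t h1 h2
  exact (ContinuousLinearMap.fst ℝ ℝ ℝ).hasFDerivAt.comp_hasDerivAt t h3

theorem exists_half
    (hB : ∀ (a c : ℝ) {X : ℝ}, 0 < X → ∃ T > 0, ∃ γ : ℝ → ℝ × ℝ,
      γ 0 = (0, et X) ∧ γ T = (0, -et X) ∧ (∀ t ∈ Icc 0 T, HasDerivAt γ (fld a c 0 (γ t)) t) ∧
      (∀ t ∈ Icc 0 T, kap (γ t) = kp X) ∧ (∀ t ∈ Icc 0 T, ‖γ t‖ ≤ 1 + X) ∧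
      (∀ t ∈ Ioo 0 T, 0 < (γ t).1) ∧ ∫ t in (0:ℝ)..T, G a c (γ t) = 2 * Mel a c X)
    {a c R X₀ : ℝ} (hX : 0 < X₀) (hR : 2 + X₀ < R)
    {Z : ℝ → ℝ × ℝ → ℝ → ℝ × ℝ} {W : ℝ → ℝ × ℝ → ℝ → ℝ} (h : Flw a c R Z W) :
    ∃ τ δ, Half a c R X₀ Z W τ δ := by
  obtain ⟨T, hT, γ, g0, gT, gd, -, gb, gp, -⟩ := hB a c hX
  have hZγ := flow_eq h (by linarith : 1 + X₀ < R) g0 gd gb
  -- the map
  obtain ⟨F, hF⟩ : ∃ F : (ℝ × ℝ) × ℝ → ℝ × ℝ, F = fun u => Z u.2 (0, et u.1.1) u.1.2 := ⟨_, rfl⟩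
  have hFa : ∀ q t, F (q, t) = Z t (0, et q.1) q.2 := fun q t => by rw [hF]
  have hFc : Continuous F := by
    rw [hF]
    have h1 : Continuous (fun u : (ℝ × ℝ) × ℝ => (u.2, ((0:ℝ), et u.1.1), u.1.2)) := by
      have := continuous_et
      fun_prop
    exact h.smZ.continuous.comp h1
  have hq0 : ∀ t ∈ Icc 0 T, F ((X₀, 0), t) = γ t := fun t ht => by
    rw [hFa]; exact hZγ t ht
  have hF0 : ∀ q : ℝ × ℝ, F (q, 0) = (0, et q.1) := fun q => by rw [hFa, h.zero]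
  have hFT : F ((X₀, 0), T) = (0, -et X₀) := by rw [hq0 T ⟨hT.le, le_rfl⟩, gT]
  have hin : ContDiffAt ℝ 1 (fun u : (ℝ × ℝ) × ℝ => (u.2, ((0:ℝ), et u.1.1), u.1.2))
      ((X₀, 0), T) := by
    have h1 : ContDiffAt ℝ 1 (fun u : (ℝ × ℝ) × ℝ => et u.1.1) ((X₀, 0), T) :=
      ContDiffAt.comp ((X₀, 0), T) (g := et) (f := fun u : (ℝ × ℝ) × ℝ => u.1.1) (et_smooth hX)
        (by fun_prop)
    have h2 : ContDiffAt ℝ 1 (fun u : (ℝ × ℝ) × ℝ => u.1.2) ((X₀, 0), T) := by fun_prop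
    exact contDiffAt_snd.prodMk ((contDiffAt_const.prodMk h1).prodMk h2)
  have hf1 : ContDiffAt ℝ 1 (fun u => (F u).1) ((X₀, 0), T) := by
    rw [hF]
    have h2 : ContDiff ℝ 1 (fun q : ℝ × (ℝ × ℝ) × ℝ => Z q.1 q.2.1 q.2.2) :=
      h.smZ.of_le (by norm_num)
    exact (h2.contDiffAt.comp _ hin).fst
  have hTR : ‖Z T (0, et X₀) 0‖ < R := by
    rw [hZγ T ⟨hT.le, le_rfl⟩]
    exact (gb T ⟨hT.le, le_rfl⟩).trans_lt (by linarith)
  have hL : HasFDerivAt (fun u => (F u).1) (fderiv ℝ (fun u => (F u).1) ((X₀, 0), T))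
      ((X₀, 0), T) := (hf1.differentiableAt one_ne_zero).hasFDerivAt
  have hpath : HasDerivAt (fun t : ℝ => ((X₀, (0:ℝ)), t)) ((0, 0), (1:ℝ)) T :=
    (hasDerivAt_const T ((X₀, (0:ℝ)) : ℝ × ℝ)).prodMk (hasDerivAt_id T)
  have h1 : HasDerivAt (fun t => (F ((X₀, 0), t)).1)
      (fderiv ℝ (fun u => (F u).1) ((X₀, 0), T) ((0, 0), 1)) T := hL.comp_hasDerivAt T hpath
  have h2 : HasDerivAt (fun t => (F ((X₀, 0), t)).1) (-et X₀) T := by
    have h3 := der_fst h hTR (by simp : |(0:ℝ)| < 1)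
    have h4 : (Z T (0, et X₀) 0).2 = -et X₀ := by
      rw [hZγ T ⟨hT.le, le_rfl⟩, gT]
    rw [h4] at h3
    simpa only [hFa] using h3
  have hc : fderiv ℝ (fun u => (F u).1) ((X₀, 0), T) ((0, 0), 1) = -et X₀ := h1.unique h2
  have hne : (-et X₀) ≠ 0 := neg_ne_zero.2 (et_pos hX).ne'
  have hinv : (fderiv ℝ (fun u => (F u).1) ((X₀, 0), T) ∘L
      ContinuousLinearMap.inr ℝ (ℝ × ℝ) ℝ).IsInvertible := by
    refine ⟨ContinuousLinearEquiv.unitsEquivAut ℝ (Units.mk0 _ hne), ?_⟩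
    apply ContinuousLinearMap.ext_ring
    show (1 : ℝ) * (-et X₀) = fderiv ℝ (fun u => (F u).1) ((X₀, 0), T) ((0, 0), 1)
    rw [hc, one_mul]
  obtain ⟨τ, hτdef⟩ : ∃ τ, τ = hf1.implicitFunction one_ne_zero hinv := ⟨_, rfl⟩
  have hτ0 : τ (X₀, 0) = T := by
    rw [hτdef]; exact hf1.implicitFunction_apply_self one_ne_zero hinv
  have hτc : ContDiffAt ℝ 1 τ (X₀, 0) := by
    rw [hτdef]; exact hf1.contDiffAt_implicitFunction one_ne_zero hinv
  have hτe : ∀ᶠ q in 𝓝 ((X₀, 0) : ℝ × ℝ), (F (q, τ q)).1 = 0 := by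
    rw [hτdef]
    have := hf1.eventually_apply_implicitFunction one_ne_zero hinv
    filter_upwards [this] with q hq
    rw [hq]
    show (F ((X₀, 0), T)).1 = 0
    rw [hFT]
  have hτs : ∀ᶠ q in 𝓝 ((X₀, 0) : ℝ × ℝ), ContDiffAt ℝ 1 τ q := hτc.eventually (by simp)
  -- ball
  obtain ⟨u1, v1, hu1, hv1, su1, sv1, huv1⟩ := generalized_tube_lemma
    (isCompact_singleton (x := ((X₀, 0) : ℝ × ℝ))) (isCompact_Icc (a := (0:ℝ)) (b := T))
    (n := {u | ‖F u‖ < R}) (isOpen_lt hFc.norm continuous_const) (by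
      rintro ⟨q, t⟩ ⟨hq, ht⟩
      have hq' : q = (X₀, 0) := hq
      show ‖F (q, t)‖ < R
      rw [hq', hq0 t ht]
      exact (gb t ht).trans_lt (by linarith))
  obtain ⟨η1, hη1, hball1⟩ := Metric.isOpen_iff.1 hv1 T (sv1 ⟨hT.le, le_rfl⟩)
  have B1 : ∀ q ∈ u1, ∀ t, 0 ≤ t → t < T + η1 → ‖F (q, t)‖ < R := by
    intro q hq t ht0 ht1
    refine huv1 (mk_mem_prod hq ?_)
    by_cases htT : t ≤ T
    · exact sv1 ⟨ht0, htT⟩
    · refine hball1 ?_
      rw [Metric.mem_ball, Real.dist_eq, abs_lt]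
      push Not at htT
      constructor <;> linarith
  -- near 0
  have e2 : ∀ᶠ u in 𝓝 (((X₀, 0), 0) : (ℝ × ℝ) × ℝ), 0 < (F u).2 := by
    refine continuousAt_const.eventually_lt (hFc.snd.continuousAt) ?_
    rw [hF0]; exact et_pos hX
  obtain ⟨η2, hη2, hP2⟩ := Metric.eventually_nhds_iff.1 e2
  -- near T
  have e3 : ∀ᶠ u in 𝓝 (((X₀, 0), T) : (ℝ × ℝ) × ℝ), (F u).2 < 0 := by
    refine (hFc.snd.continuousAt).eventually_lt continuousAt_const ?_
    rw [hFT]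
    show -et X₀ < 0
    linarith [et_pos hX]
  obtain ⟨η3, hη3, hP3⟩ := Metric.eventually_nhds_iff.1 e3
  -- middle
  obtain ⟨σ, hσ⟩ : ∃ σ, σ = min (min η2 η3) T / 2 := ⟨_, rfl⟩
  have σ0 : 0 < σ := by
    rw [hσ]; exact half_pos (lt_min (lt_min hη2 hη3) hT)
  have σ2 : σ < η2 := by
    have : min (min η2 η3) T ≤ η2 := (min_le_left _ _).trans (min_le_left _ _)
    linarith
  have σ3 : σ < η3 := by
    have : min (min η2 η3) T ≤ η3 := (min_le_left _ _).trans (min_le_right _ _)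
    linarith
  obtain ⟨u4, v4, hu4, hv4, su4, sv4, huv4⟩ := generalized_tube_lemma
    (isCompact_singleton (x := ((X₀, 0) : ℝ × ℝ))) (isCompact_Icc (a := σ) (b := T - σ))
    (n := {u | 0 < (F u).1}) (isOpen_lt continuous_const hFc.fst) (by
      rintro ⟨q, t⟩ ⟨hq, ht⟩
      have hq' : q = (X₀, 0) := hq
      show 0 < (F (q, t)).1
      have ht' : t ∈ Icc σ (T - σ) := ht
      rw [hq', hq0 t ⟨by linarith [ht'.1], by linarith [ht'.2]⟩]
      exact gp t ⟨by linarith [ht'.1], by linarith [ht'.2]⟩)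
  -- the return time is close to T
  have hτn : ∀ᶠ q in 𝓝 ((X₀, 0) : ℝ × ℝ), |τ q - T| < min (min η1 η3) T := by
    have h5 : ContinuousAt (fun q => |τ q - T|) (X₀, 0) :=
      (hτc.continuousAt.sub continuousAt_const).abs
    refine h5.eventually_lt continuousAt_const ?_
    rw [hτ0, sub_self, abs_zero]
    exact lt_min (lt_min hη1 hη3) hT
  have hε : ∀ᶠ q in 𝓝 ((X₀, 0) : ℝ × ℝ), |q.2| < 1 := by
    have h5 : ContinuousAt (fun q : ℝ × ℝ => |q.2|) (X₀, 0) := continuous_snd.abs.continuousAt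
    refine h5.eventually_lt continuousAt_const ?_
    show |(0:ℝ)| < 1
    simp
  have hd2 : ∀ᶠ q in 𝓝 ((X₀, 0) : ℝ × ℝ), dist q (X₀, 0) < min η2 η3 :=
    Metric.ball_mem_nhds _ (lt_min hη2 hη3)
  have hall : ∀ᶠ q in 𝓝 ((X₀, 0) : ℝ × ℝ), ContDiffAt ℝ 1 τ q ∧ 0 < τ q ∧
      (∀ t ∈ Icc 0 (τ q), ‖F (q, t)‖ < R) ∧ (∀ t ∈ Ioo 0 (τ q), 0 < (F (q, t)).1) ∧
      (F (q, τ q)).1 = 0 ∧ (F (q, τ q)).2 < 0 := by
    filter_upwards [hτe, hτs, hu1.mem_nhds (su1 rfl), hu4.mem_nhds (su4 rfl), hτn, hε, hd2]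
      with q p1 p2 p3 p4 p5 p6 p7
    rw [abs_lt] at p5
    have m1 : min (min η1 η3) T ≤ η1 := (min_le_left _ _).trans (min_le_left _ _)
    have m3 : min (min η1 η3) T ≤ η3 := (min_le_left _ _).trans (min_le_right _ _)
    have mT : min (min η1 η3) T ≤ T := min_le_right _ _
    have d2 : dist q (X₀, 0) < η2 := p7.trans_le (min_le_left _ _)
    have d3 : dist q (X₀, 0) < η3 := p7.trans_le (min_le_right _ _)
    have hbl : ∀ t ∈ Icc 0 (τ q), ‖F (q, t)‖ < R :=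
      fun t ht => B1 q p3 t ht.1 (by linarith [ht.2])
    have n2 : ∀ t, |t| < η2 → 0 < (F (q, t)).2 := by
      intro t ht
      apply hP2
      rw [Prod.dist_eq]
      refine max_lt d2 ?_
      show dist t 0 < η2
      rw [Real.dist_eq, sub_zero]; exact ht
    have n3 : ∀ t, |t - T| < η3 → (F (q, t)).2 < 0 := by
      intro t ht
      apply hP3
      rw [Prod.dist_eq]
      refine max_lt d3 ?_
      show dist t T < η3
      rw [Real.dist_eq]; exact ht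
    have hder : ∀ t ∈ Icc 0 (τ q), HasDerivAt (fun t => (F (q, t)).1) (F (q, t)).2 t := by
      intro t ht
      have h6 := hbl t ht
      rw [hFa] at h6
      have h7 := der_fst h h6 p6
      simpa only [hFa] using h7
    have hcont : Continuous (fun t => (F (q, t)).1) := by
      exact (hFc.comp (by fun_prop : Continuous (fun t : ℝ => (q, t)))).fst
    refine ⟨p2, by linarith, hbl, ?_, p1, n3 _ (by rw [abs_lt]; constructor <;> linarith)⟩
    intro t ht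
    by_cases ht1 : t < σ
    · obtain ⟨s, hs, hs2⟩ := exists_hasDerivAt_eq_slope (fun t => (F (q, t)).1)
        (fun t => (F (q, t)).2) ht.1 hcont.continuousOn
        (fun s hs => hder s ⟨hs.1.le, (hs.2.trans ht.2).le⟩)
      have h8 := n2 s (by rw [abs_lt]; constructor <;> linarith [hs.1, hs.2])
      have h9 : (F (q, 0)).1 = 0 := by rw [hF0]
      rw [h9, sub_zero, sub_zero] at hs2
      rw [hs2] at h8
      exact (div_pos_iff_of_pos_right ht.1).1 h8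
    · push Not at ht1
      by_cases ht2 : t ≤ T - σ
      · exact huv4 (mk_mem_prod p4 (sv4 ⟨ht1, ht2⟩))
      · push Not at ht2
        obtain ⟨s, hs, hs2⟩ := exists_hasDerivAt_eq_slope (fun t => (F (q, t)).1)
          (fun t => (F (q, t)).2) ht.2 hcont.continuousOn
          (fun s hs => hder s ⟨(ht.1.trans hs.1).le, hs.2.le⟩)
        have h8 := n3 s (by rw [abs_lt]; constructor <;> linarith [hs.1, hs.2])
        rw [p1, zero_sub] at hs2
        rw [hs2] at h8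
        have h9 : 0 < τ q - t := sub_pos.2 ht.2
        have h10 : -(F (q, t)).1 < 0 := by
          by_contra hcon
          push Not at hcon
          have := div_nonneg hcon h9.le
          linarith
        linarith
  obtain ⟨δ₀, hδ₀, hδ⟩ := Metric.eventually_nhds_iff.1 hall
  obtain ⟨δ, hδdef⟩ : ∃ δ, δ = min δ₀ (min (X₀ / 2) (1 / 2)) := ⟨_, rfl⟩
  have δ1 : 0 < δ := by
    rw [hδdef]; exact lt_min hδ₀ (lt_min (by linarith) (by norm_num))
  have δ2 : δ ≤ δ₀ := by rw [hδdef]; exact min_le_left _ _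
  have δ3 : δ ≤ X₀ / 2 := by rw [hδdef]; exact (min_le_right _ _).trans (min_le_left _ _)
  have δ4 : δ ≤ 1 / 2 := by rw [hδdef]; exact (min_le_right _ _).trans (min_le_right _ _)
  have hP : ∀ X ∈ Ioo (X₀ - δ) (X₀ + δ), ∀ ε ∈ Ioo (-δ) δ, ContDiffAt ℝ 1 τ (X, ε) ∧
      0 < τ (X, ε) ∧
      (∀ t ∈ Icc 0 (τ (X, ε)), ‖F ((X, ε), t)‖ < R) ∧
      (∀ t ∈ Ioo 0 (τ (X, ε)), 0 < (F ((X, ε), t)).1) ∧
      (F ((X, ε), τ (X, ε))).1 = 0 ∧ (F ((X, ε), τ (X, ε))).2 < 0 := by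
    intro X hX' ε hε'
    apply hδ
    rw [Prod.dist_eq]
    refine max_lt ?_ ?_
    · show dist X X₀ < δ₀
      rw [Real.dist_eq, abs_lt]
      constructor <;> linarith [hX'.1, hX'.2]
    · show dist ε 0 < δ₀
      rw [Real.dist_eq, sub_zero, abs_lt]
      constructor <;> linarith [hε'.1, hε'.2]
  refine ⟨τ, δ, ⟨δ1, by linarith, by linarith, ?_, ?_, ?_, ?_, ?_, ?_, ?_⟩⟩
  · rintro ⟨X, ε⟩ ⟨h5, h6⟩
    exact (hP X h5 ε h6).1.contDiffWithinAt
  · intro X h5 ε h6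
    exact (hP X h5 ε h6).2.1
  · intro X h5 ε h6 t ht
    have := (hP X h5 ε h6).2.2.1 t ht
    rwa [hFa] at this
  · intro X h5 ε h6 t ht
    have := (hP X h5 ε h6).2.2.2.1 t ht
    rwa [hFa] at this
  · intro X h5 ε h6
    have := (hP X h5 ε h6).2.2.2.2.1
    rwa [hFa] at this
  · intro X h5 ε h6
    have := (hP X h5 ε h6).2.2.2.2.2
    rwa [hFa] at this
  · intro X h5
    have h6 : (0:ℝ) ∈ Ioo (-δ) δ := ⟨by linarith, δ1⟩
    obtain ⟨-, k1, -, k2, k3, -⟩ := hP X h5 0 h6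
    have hX' : 0 < X := by linarith [h5.1]
    have hXR : 1 + X < R := by linarith [h5.2]
    obtain ⟨T', hT', γ', g0', gT', gd', -, gb', gp', gi'⟩ := hB a c hX'
    have hZ' := flow_eq h hXR g0' gd' gb'
    have hTT : τ (X, 0) = T' := by
      rcases lt_trichotomy (τ (X, 0)) T' with h7 | h7 | h7
      · exfalso
        rw [hFa] at k3
        have h8 := hZ' (τ (X, 0)) ⟨k1.le, h7.le⟩
        have h9 := gp' (τ (X, 0)) ⟨k1, h7⟩
        rw [← h8] at h9
        exact absurd k3 h9.ne'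
      · exact h7
      · exfalso
        have h8 := k2 T' ⟨hT', h7⟩
        rw [hFa] at h8
        have h9 := hZ' T' ⟨hT'.le, le_rfl⟩
        rw [gT'] at h9
        simp only [h9] at h8
        exact absurd h8 (lt_irrefl _)
    rw [hTT, acc_eq h hT' hXR g0' gd' gb', gi']

end Pool.Agent.W962.HC
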